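import Pool.Agent.L0h83.Hk.Core
import Pool.Agent.L0h83.Hk.LocLim
import Pool.Agent.L0h83.Hk.HS

set_option autoImplicit false

/-!
# Hilbert-Schmidt Hankel operators with conjugate holomorphic symbols on Reinhardt domains

Let `n ≥ 2` and let `Ω` be a bounded Reinhardt domain in `ℂ^n` (no convexity, pseudoconvexity or
completeness is assumed) and `f` a holomorphic function on `Ω`. If the Hankel operator with symbol
`conj f` is densely defined on the Bergman space and extends to a Hilbert-Schmidt operator, then it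
is zero, and `f` is constant.

Idea of the proof. Let `φ` be a nonzero homogeneous component of `f`, of weight `γ ≠ 0`. For a
homogeneous `u` in the Bergman space, of weight `w`, the component of weight `w - γ` of the Hankel
operator at `u` has norm squared `N (φ u) - N u ^ 2 / N u'`, where `u' = u / φ` if this is a square
integrable holomorphic function, and `N (φ u)` otherwise. So along a line of weights parallel to
`γ` the sum telescopes, and it is at least `sup |φ|^2`, minus a ratio. On lines on which the sum is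
less than `ε` one can divide by `φ` for ever, and the growth of the quotients shows that
`|φ|^2 ≥ sup |φ|^2 - ε` on `Ω`. So `|φ|`, hence `φ`, is constant, and its weight is zero.
-/

open MeasureTheory Set Filter Topology
open scoped ComplexConjugate ENNReal InnerProductSpace

namespace Pool.Agent.Results.MP_dc9318_an.HilbertSchmidtHankel

open Pool.Agent.L0h83.Hk

variable {n : ℕ}

/-- the complex Hilbert space `L²(μ)` -/
abbrev L2 {X : Type} [MeasurableSpace X] (μ : Measure X) : Type := Lp ℂ 2 μ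

/-- The domain of the Hankel operator with symbol `s` on the subspace `A` of `L²(μ)`: all `g` in `A`
with `s g` in `L²(μ)`. -/
def hankelDomain {X : Type} [MeasurableSpace X] {μ : Measure X} (A : Submodule ℂ (L2 μ))
    (s : X → ℂ) : Set A :=
  {g | MemLp (fun z => s z * (g : L2 μ) z) 2 μ}

/-- `(I - P) y`, where `P` is the orthogonal projection onto `A`. -/
noncomputable def offProj {E : Type} [NormedAddCommGroup E] [InnerProductSpace ℂ E]
    (A : Submodule ℂ E) [A.HasOrthogonalProjection] (y : E) : E :=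
  y - A.starProjection y

/-- The Hankel operator `H_s g = (I - P)(s g)`, where `P` is the orthogonal projection of `L²(μ)`
onto `A`. -/
noncomputable def hankel {X : Type} [MeasurableSpace X] {μ : Measure X}
    (A : Submodule ℂ (L2 μ)) [A.HasOrthogonalProjection] (s : X → ℂ)
    (g : A) (hg : g ∈ hankelDomain A s) : L2 μ :=
  offProj A (MemLp.toLp (fun z => s z * (g : L2 μ) z) hg)

/-- Hilbert-Schmidt operators: the sum of the squares `‖T b_i‖ ^ 2` over an orthonormal basis `b` is
finite. -/
def IsHilbertSchmidt {E F : Type} [NormedAddCommGroup E] [InnerProductSpace ℂ E]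
    [NormedAddCommGroup F] [InnerProductSpace ℂ F] (T : E →L[ℂ] F) : Prop :=
  ∃ (ι : Type) (b : HilbertBasis ι ℂ E), Summable fun i => ‖T (b i)‖ ^ 2

/-- The operator `H` with domain `D` is densely defined and extends to a Hilbert-Schmidt operator
from `E` to `F`. -/
def HasHilbertSchmidtExtension {E F : Type} [NormedAddCommGroup E] [InnerProductSpace ℂ E]
    [NormedAddCommGroup F] [InnerProductSpace ℂ F] (D : Set E) (H : ∀ g ∈ D, F) : Prop :=
  Dense D ∧ ∃ T : E →L[ℂ] F, IsHilbertSchmidt T ∧ ∀ (g : E) (hg : g ∈ D), T g = H g hg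

/-- The Hankel operator `H_s` on `A` is densely defined and extends to a Hilbert-Schmidt operator
from `A` to `L²(μ)`. -/
def IsHilbertSchmidtHankel {X : Type} [MeasurableSpace X] {μ : Measure X}
    (A : Submodule ℂ (L2 μ)) [A.HasOrthogonalProjection] (s : X → ℂ) : Prop :=
  HasHilbertSchmidtExtension (hankelDomain A s) (hankel A s)

/-- The Hankel operator `H_s` is zero. -/
def HankelIsZero {X : Type} [MeasurableSpace X] {μ : Measure X}
    (A : Submodule ℂ (L2 μ)) [A.HasOrthogonalProjection] (s : X → ℂ) : Prop :=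
  ∀ (g : A) (hg : g ∈ hankelDomain A s), hankel A s g hg = 0

/-- The subspace of `L²(μ)` of the classes of the functions with the property `p`. -/
noncomputable def classes {X : Type} [MeasurableSpace X] (μ : Measure X) (p : (X → ℂ) → Prop) :
    Submodule ℂ (L2 μ) :=
  Submodule.span ℂ {g | ∃ h : X → ℂ, p h ∧ g =ᵐ[μ] h}

/-- The Bergman space `A²(Ω)`: the space of the classes in `L²(Ω)` (Lebesgue measure) of functions
holomorphic on `Ω`. -/
noncomputable def bergman (Ω : Set (Fin n → ℂ)) : Submodule ℂ (L2 (volume.restrict Ω)) :=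
  classes (volume.restrict Ω) fun h => DifferentiableOn ℂ h Ω

/-- Reinhardt sets: invariance under all rotations of the coordinates. -/
def IsReinhardt (Ω : Set (Fin n → ℂ)) : Prop :=
  ∀ z ∈ Ω, ∀ θ : Fin n → ℝ, (fun j => Complex.exp (θ j * Complex.I) * z j) ∈ Ω

lemma mem_bergman {Ω : Set (Fin n → ℂ)} {g : L2 (volume.restrict Ω)} :
    g ∈ bergman Ω ↔ ∃ h : (Fin n → ℂ) → ℂ, DifferentiableOn ℂ h Ω ∧
      g =ᵐ[volume.restrict Ω] h := by
  refine ⟨fun hg => ?_, fun hg => Submodule.subset_span hg⟩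
  have hg' : g ∈ Submodule.span ℂ {g : L2 (volume.restrict Ω) | ∃ h : (Fin n → ℂ) → ℂ, DifferentiableOn ℂ h Ω ∧
    g =ᵐ[volume.restrict Ω] h} := hg
  refine Submodule.span_induction (p := fun (g : L2 (volume.restrict Ω)) _ => ∃ h : (Fin n → ℂ) → ℂ,
    DifferentiableOn ℂ h Ω ∧ g =ᵐ[volume.restrict Ω] h) ?_ ?_ ?_ ?_ hg'
  · intro x hx
    exact hx
  · exact ⟨fun _ => 0, differentiableOn_const 0, Lp.coeFn_zero _ _ _⟩
  · rintro a b - - ⟨h, hh, hah⟩ ⟨k, hk, hbk⟩
    refine ⟨fun z => h z + k z, hh.add hk, ?_⟩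
    filter_upwards [Lp.coeFn_add a b, hah, hbk] with z h1 h2 h3
    rw [h1, Pi.add_apply, h2, h3]
  · rintro c a - ⟨h, hh, hah⟩
    refine ⟨fun z => c * h z, hh.const_mul c, ?_⟩
    filter_upwards [Lp.coeFn_smul c a, hah] with z h1 h2
    rw [h1, Pi.smul_apply, h2, smul_eq_mul]

lemma eLpNorm_coe_sub {Ω : Set (Fin n → ℂ)} (a b : L2 (volume.restrict Ω)) :
    eLpNorm (fun z => a z - b z) 2 (volume.restrict Ω) =
      ENNReal.ofReal ‖a - b‖ := by
  rw [Lp.norm_def, ENNReal.ofReal_toReal (Lp.eLpNorm_ne_top _)]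
  exact (eLpNorm_congr_ae (Lp.coeFn_sub a b)).symm

lemma tendsto_eLpNorm {Ω : Set (Fin n → ℂ)} {a : ℕ → L2 (volume.restrict Ω)} {b : L2 (volume.restrict Ω)}
    (h : Tendsto a atTop (𝓝 b)) :
    Tendsto (fun m => eLpNorm (fun z => a m z - b z) 2
      (volume.restrict Ω)) atTop (𝓝 0) := by
  simp_rw [eLpNorm_coe_sub]
  have h1 : Tendsto (fun m => ‖a m - b‖) atTop (𝓝 0) := tendsto_iff_norm_sub_tendsto_zero.mp h
  have h2 := (ENNReal.continuous_ofReal.tendsto 0).comp h1
  simpa [Function.comp_def] using h2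

/-- The Bergman space is closed. -/
theorem isClosed_bergman {Ω : Set (Fin n → ℂ)} (ho : IsOpen Ω) :
    IsClosed (bergman Ω : Set (L2 (volume.restrict Ω))) := by
  refine IsSeqClosed.isClosed fun a b ha hab => ?_
  have ha' := fun m => mem_bergman.mp (ha m)
  choose h hh hah using ha'
  have hl : ∀ z r, Metric.closedBall z r ⊆ Ω →
      Tendsto (fun m => eLpNorm (h m - (b : (Fin n → ℂ) → ℂ)) 2
        (volume.restrict (Metric.closedBall z r))) atTop (𝓝 0) := by
    intro z r hzr
    refine tendsto_of_tendsto_of_tendsto_of_le_of_le tendsto_const_nhds (tendsto_eLpNorm hab)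
      (fun m => zero_le) fun m => ?_
    have e1 : eLpNorm (fun z => a m z - b z) 2 (volume.restrict Ω) =
        eLpNorm (h m - (b : (Fin n → ℂ) → ℂ)) 2 (volume.restrict Ω) := by
      refine eLpNorm_congr_ae ?_
      filter_upwards [hah m] with x hx
      rw [hx, Pi.sub_apply]
    rw [e1]
    exact eLpNorm_mono_measure _ (Measure.restrict_mono hzr le_rfl)
  obtain ⟨P, hP, hbP⟩ := loc_lim ho hh (w := b) (Lp.aestronglyMeasurable b) hl
  exact mem_bergman.mpr ⟨P, hP, hbP⟩

lemma IsReinhardt.inv {Ω : Set (Fin n → ℂ)} (h : IsReinhardt Ω) :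
    Pool.Agent.L0h83.Hk.Inv Ω := by
  intro t z hz
  have h1 : ∀ j, ∃ x : ℝ, (x : UnitAddCircle) = t j := fun j => QuotientAddGroup.mk_surjective (t j)
  choose x hx using h1
  have h2 := h z hz fun j => 2 * Real.pi * x j
  convert h2 using 1
  funext j
  rw [rot_apply, ← hx j, fourier_coe_apply]
  congr 2
  push_cast
  ring

section

variable {Ω : Set (Fin n → ℂ)} {f : (Fin n → ℂ) → ℂ}
  {T : bergman Ω →L[ℂ] L2 (volume.restrict Ω)}

/-- the formula for the extension of the Hankel operator -/
theorem ext_formula (ho : IsOpen Ω) [(bergman Ω).HasOrthogonalProjection]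
    (hf : DifferentiableOn ℂ f Ω)
    (hd : Dense (hankelDomain (bergman Ω) fun z => conj (f z)))
    (he : ∀ (g : bergman Ω) (hg : g ∈ hankelDomain (bergman Ω) fun z => conj (f z)),
      T g = hankel (bergman Ω) (fun z => conj (f z)) g hg) (g : bergman Ω) :
    T g ∈ (bergman Ω)ᗮ ∧ ∃ p : (Fin n → ℂ) → ℂ, DifferentiableOn ℂ p Ω ∧
      T g =ᵐ[volume.restrict Ω]
        fun z => conj (f z) * (g : L2 (volume.restrict Ω)) z - p z := by
  have hms : MeasurableSet Ω := ho.measurableSet
  obtain ⟨a, ha, hag⟩ := mem_closure_iff_seq_limit.mp (hd g)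
  have hTa : Tendsto (fun m => T (a m)) atTop (𝓝 (T g)) := (T.continuous.tendsto g).comp hag
  have horth : ∀ m, T (a m) ∈ (bergman Ω)ᗮ := by
    intro m
    rw [he (a m) (ha m)]
    exact Submodule.sub_starProjection_mem_orthogonal _
  refine ⟨(bergman Ω).isClosed_orthogonal.mem_of_tendsto hTa (Eventually.of_forall horth), ?_⟩
  have hp : ∀ m, ∃ p : (Fin n → ℂ) → ℂ, DifferentiableOn ℂ p Ω ∧
      (fun z => conj (f z) * (a m : L2 (volume.restrict Ω)) z - T (a m) z)
        =ᵐ[volume.restrict Ω] p := by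
    intro m
    have h1 : (bergman Ω).starProjection (MemLp.toLp _ (ha m)) ∈ bergman Ω :=
      Submodule.starProjection_apply_mem _ _
    obtain ⟨p, hp, hpe⟩ := mem_bergman.mp h1
    refine ⟨p, hp, ?_⟩
    have h2 : MemLp.toLp _ (ha m) - T (a m) = (bergman Ω).starProjection (MemLp.toLp _ (ha m)) := by
      rw [he (a m) (ha m)]
      unfold hankel offProj
      abel
    have h3 := Lp.coeFn_sub (MemLp.toLp _ (ha m)) (T (a m))
    rw [h2] at h3
    filter_upwards [h3, hpe, MemLp.coeFn_toLp (ha m)] with z hz1 hz2 hz3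
    rw [← hz2, hz1, Pi.sub_apply, hz3]
  choose p hp hpe using hp
  have hfm : AEStronglyMeasurable (fun z => conj (f z))
      (volume.restrict Ω) :=
    (hf.continuousOn.star).aestronglyMeasurable hms
  have hgm : ∀ b : L2 (volume.restrict Ω), AEStronglyMeasurable (b : (Fin n → ℂ) → ℂ)
      (volume.restrict Ω) := fun b => Lp.aestronglyMeasurable b
  have hl : ∀ z r, Metric.closedBall z r ⊆ Ω →
      Tendsto (fun m => eLpNorm (p m - fun z => conj (f z) * (g : L2 (volume.restrict Ω)) z - T g z) 2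
        (volume.restrict (Metric.closedBall z r))) atTop (𝓝 0) := by
    intro z r hzr
    obtain ⟨M, hM⟩ := (isCompact_closedBall z r).exists_bound_of_continuousOn
      (hf.continuousOn.mono hzr)
    have hMr := Measure.restrict_mono hzr (le_refl (volume : Measure (Fin n → ℂ)))
    have hag' : Tendsto (fun m => ((a m : bergman Ω) : L2 (volume.restrict Ω))) atTop (𝓝 (g : L2 (volume.restrict Ω))) :=
      (continuous_subtype_val.tendsto g).comp hag
    have t1 := tendsto_eLpNorm hag'
    have t2 := tendsto_eLpNorm hTa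
    have t3 : Tendsto (fun m => ENNReal.ofReal (max M 0) *
        eLpNorm (fun z => ((a m : bergman Ω) : L2 (volume.restrict Ω)) z - (g : L2 (volume.restrict Ω)) z) 2
          (volume.restrict Ω) +
        eLpNorm (fun z => T (a m) z - T g z) 2
          (volume.restrict Ω)) atTop (𝓝 0) := by
      have t4 := ENNReal.Tendsto.const_mul (a := ENNReal.ofReal (max M 0)) t1
        (Or.inr ENNReal.ofReal_ne_top)
      have := t4.add t2
      simpa using this
    refine tendsto_of_tendsto_of_tendsto_of_le_of_le tendsto_const_nhds t3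
      (fun m => zero_le) fun m => ?_
    have e1 : eLpNorm (p m - fun z => conj (f z) * (g : L2 (volume.restrict Ω)) z - T g z) 2
        (volume.restrict (Metric.closedBall z r)) =
        eLpNorm ((fun z => conj (f z) * (((a m : bergman Ω) : L2 (volume.restrict Ω)) z - (g : L2 (volume.restrict Ω)) z)) -
          fun z => T (a m) z - T g z) 2 (volume.restrict (Metric.closedBall z r)) := by
      refine eLpNorm_congr_ae ?_
      have := ae_mono hMr (hpe m)
      filter_upwards [this] with x hx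
      rw [Pi.sub_apply, Pi.sub_apply, ← hx]
      ring
    change eLpNorm (p m - fun z => conj (f z) * (g : L2 (volume.restrict Ω)) z - T g z) 2
        (volume.restrict (Metric.closedBall z r)) ≤ _
    rw [e1]
    have hma : AEStronglyMeasurable
        (fun z => conj (f z) * (((a m : bergman Ω) : L2 (volume.restrict Ω)) z - (g : L2 (volume.restrict Ω)) z))
        (volume.restrict Ω) := hfm.mul ((hgm _).sub (hgm _))
    have hmb : AEStronglyMeasurable (fun z => T (a m) z - T g z)
        (volume.restrict Ω) := (hgm _).sub (hgm _)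
    refine (eLpNorm_sub_le (hma.mono_measure hMr) (hmb.mono_measure hMr) (by norm_num)).trans ?_
    refine add_le_add ?_ (eLpNorm_mono_measure _ hMr)
    refine le_trans ?_ (mul_le_mul_right (eLpNorm_mono_measure _ hMr) _)
    refine eLpNorm_le_mul_eLpNorm_of_ae_le_mul ?_ 2
    filter_upwards [ae_restrict_mem Metric.isClosed_closedBall.measurableSet] with x hx
    rw [norm_mul, Complex.norm_conj]
    gcongr
    exact (hM x hx).trans (le_max_left _ _)
  obtain ⟨P, hP, hPe⟩ := loc_lim ho hp
    (w := fun z => conj (f z) * (g : L2 (volume.restrict Ω)) z - T g z) ((hfm.mul (hgm _)).sub (hgm _)) hl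
  refine ⟨P, hP, ?_⟩
  filter_upwards [hPe] with z hz
  rw [← hz]
  ring

end

/-- orthogonality of different weights -/
lemma orth_weights {Ω : Set (Fin n → ℂ)} (ho : IsOpen Ω) (hI : Pool.Agent.L0h83.Hk.Inv Ω)
    {w w' : Fin n → ℤ} (hw : w ≠ w') {u u' : (Fin n → ℂ) → ℂ} (hu : Hm Ω w u)
    (hu' : Hm Ω w' u') : ∫ z in Ω, u z * conj (u' z) = 0 := by
  obtain ⟨t, ht⟩ := exists_mFourier_ne (sub_ne_zero.mpr hw)
  have hms := ho.measurableSet
  have hmp := hI.measurePreserving hms t
  have hmeas : AEStronglyMeasurable (fun z => u z * conj (u' z)) (volume.restrict Ω) :=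
    (hu.diff.continuousOn.mul hu'.diff.continuousOn.star).aestronglyMeasurable hms
  have h1 : ∫ z in Ω, u (rot t z) * conj (u' (rot t z)) = ∫ z in Ω, u z * conj (u' z) := by
    have e := hmp.map_eq
    conv_rhs => rw [← e]
    rw [integral_map hmp.measurable.aemeasurable]
    rw [e]
    exact hmeas
  have h2 : ∫ z in Ω, u (rot t z) * conj (u' (rot t z)) =
      UnitAddTorus.mFourier (w - w') t * ∫ z in Ω, u z * conj (u' z) := by
    rw [← integral_const_mul]
    refine setIntegral_congr_fun hms fun z hz => ?_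
    rw [hu.hom t z hz, hu'.hom t z hz, map_mul, sub_eq_add_neg, UnitAddTorus.mFourier_add,
      UnitAddTorus.mFourier_neg]
    ring
  rw [h2] at h1
  by_contra hcon
  exact ht (mul_right_cancel₀ hcon (by rw [h1, one_mul]))

section

variable {Ω : Set (Fin n → ℂ)}

lemma norm_sq_eq {a : L2 (volume.restrict Ω)} {h : (Fin n → ℂ) → ℂ}
    (hah : a =ᵐ[volume.restrict Ω] h) :
    ‖a‖ ^ 2 = Nn Ω h := by
  have h1 : ⟪a, a⟫_ℂ = ((‖a‖ ^ 2 : ℝ) : ℂ) := by
    rw [inner_self_eq_norm_sq_to_K]
    push_cast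
    rfl
  have h2 : ⟪a, a⟫_ℂ = ((Nn Ω h : ℝ) : ℂ) := by
    rw [L2.inner_def]
    unfold Nn
    rw [← integral_complex_ofReal]
    refine integral_congr_ae ?_
    filter_upwards [hah] with z hz
    rw [hz, inner_self_eq_norm_sq_to_K]
    push_cast
    rfl
  rw [h1] at h2
  exact_mod_cast h2

lemma inner_eq {a b : L2 (volume.restrict Ω)} {h k : (Fin n → ℂ) → ℂ}
    (hah : a =ᵐ[volume.restrict Ω] h)
    (hbk : b =ᵐ[volume.restrict Ω] k) :
    ⟪a, b⟫_ℂ = ∫ z in Ω, k z * conj (h z) := by
  rw [L2.inner_def]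
  refine integral_congr_ae ?_
  filter_upwards [hah, hbk] with z hz1 hz2
  rw [hz1, hz2, RCLike.inner_apply]

/-- the class of a square integrable holomorphic function -/
noncomputable def cls (h : (Fin n → ℂ) → ℂ) (hh : DifferentiableOn ℂ h Ω)
    (hL : MemLp h 2 (volume.restrict Ω)) : bergman Ω :=
  ⟨hL.toLp h, mem_bergman.mpr ⟨h, hh, hL.coeFn_toLp⟩⟩

lemma cls_coe (h : (Fin n → ℂ) → ℂ) (hh : DifferentiableOn ℂ h Ω)
    (hL : MemLp h 2 (volume.restrict Ω)) :
    ((cls h hh hL : bergman Ω) : L2 (volume.restrict Ω)) =ᵐ[volume.restrict Ω] h :=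
  hL.coeFn_toLp

lemma cls_norm (h : (Fin n → ℂ) → ℂ) (hh : DifferentiableOn ℂ h Ω)
    (hL : MemLp h 2 (volume.restrict Ω)) :
    ‖(cls h hh hL : bergman Ω)‖ ^ 2 = Nn Ω h := by
  rw [← norm_sq_eq (cls_coe h hh hL)]
  rfl

end

/-- **Theorem.** For `n ≥ 2` and a bounded Reinhardt domain `Ω` in `ℂ^n`, the Bergman space is closed
in `L²(Ω)`, so the Bergman projection exists, and the only Hilbert-Schmidt Hankel operator on
`A²(Ω)` with a conjugate holomorphic symbol is zero; and the symbol is then constant. -/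
theorem result {n : ℕ} (hn : 2 ≤ n) (Ω : Set (Fin n → ℂ)) (ho : IsOpen Ω)
    (hc : IsConnected Ω) (hb : Bornology.IsBounded Ω) (hR : IsReinhardt Ω) :
    ∃ _ : (bergman Ω).HasOrthogonalProjection, ∀ f : (Fin n → ℂ) → ℂ, DifferentiableOn ℂ f Ω →
      IsHilbertSchmidtHankel (bergman Ω) (fun z => conj (f z)) →
        HankelIsZero (bergman Ω) (fun z => conj (f z)) ∧ ∃ c : ℂ, ∀ z ∈ Ω, f z = c := by
  classical
  have hcomp : CompleteSpace (bergman Ω) := (isClosed_bergman ho).completeSpace_coe
  refine ⟨Submodule.HasOrthogonalProjection.ofCompleteSpace _, fun f hf hT => ?_⟩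
  obtain ⟨hdense, T, hsumm, hext⟩ := hT
  have hms : MeasurableSet Ω := ho.measurableSet
  have hI := hR.inv
  obtain ⟨ι, b, hbs⟩ := hsumm
  -- the chosen orthonormal family
  let W := {w : Fin n → ℤ // ∃ u, Elt Ω w u}
  have hU : ∀ w : W, ∃ u, Elt Ω w.1 u := fun w => w.2
  choose U hU using hU
  have hpos : ∀ w, 0 < Nn Ω (U w) := fun w => (hU w).pos ho
  set r : W → ℝ := fun w => Real.sqrt (Nn Ω (U w)) with hr
  have hrpos : ∀ w, 0 < r w := fun w => Real.sqrt_pos.mpr (hpos w)
  have hrsq : ∀ w, r w ^ 2 = Nn Ω (U w) := fun w =>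
    Real.sq_sqrt (hpos w).le
  set C : W → bergman Ω := fun w => cls (U w) (hU w).hm.diff (hU w).lp with hC
  have hCn : ∀ w, ‖C w‖ = r w := by
    intro w
    have h1 : ‖C w‖ ^ 2 = r w ^ 2 := by
      rw [hrsq, hC]
      exact cls_norm _ _ _
    exact (pow_left_inj₀ (norm_nonneg _) (hrpos w).le two_ne_zero).mp h1
  set e : W → bergman Ω := fun w => ((r w : ℂ)⁻¹) • C w with he
  have hon : Orthonormal ℂ e := by
    constructor
    · intro w
      rw [he]
      simp only
      rw [norm_smul, hCn, norm_inv, Complex.norm_real, Real.norm_of_nonneg (hrpos w).le,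
        inv_mul_cancel₀ (hrpos w).ne']
    · intro w w' hww
      rw [he]
      simp only
      have h1 : ⟪C w, C w'⟫_ℂ = 0 := by
        have h2 : ⟪C w, C w'⟫_ℂ = ⟪((C w : bergman Ω) : L2 (volume.restrict Ω)), ((C w' : bergman Ω) : L2 (volume.restrict Ω))⟫_ℂ :=
          rfl
        rw [h2, inner_eq (cls_coe _ _ _) (cls_coe _ _ _)]
        refine orth_weights ho hI ?_ (hU w').hm (hU w).hm
        intro hcon
        exact hww (Subtype.ext hcon.symm)
      have h3 : ⟪((r w : ℂ)⁻¹) • C w, ((r w' : ℂ)⁻¹) • C w'⟫_ℂ =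
          conj ((r w : ℂ)⁻¹) * (((r w' : ℂ)⁻¹) * ⟪C w, C w'⟫_ℂ) := by
        have h4 := inner_smul_left (𝕜 := ℂ) (E := bergman Ω) (C w) (((r w' : ℂ)⁻¹) • C w')
          ((r w : ℂ)⁻¹)
        have h5 := inner_smul_right (𝕜 := ℂ) (E := bergman Ω) (C w) (C w') ((r w' : ℂ)⁻¹)
        rw [← h5]
        exact h4
      refine h3.trans ?_
      rw [h1, mul_zero, mul_zero]
  have hsum := hs_summable T b hbs hon
  set τ : (Fin n → ℤ) → ℝ := fun w =>
    if h : ∃ u, Elt Ω w u then ‖T (e ⟨w, h⟩)‖ ^ 2 else 0 with hτ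
  have τ0 : ∀ w, 0 ≤ τ w := by
    intro w
    rw [hτ]
    simp only
    split_ifs
    · positivity
    · exact le_rfl
  have hτe : ∀ w : W, τ w.1 = ‖T (e w)‖ ^ 2 := by
    intro w
    rw [hτ]
    simp only
    rw [dif_pos w.2]
  have hτs : Summable τ := by
    have hinj : Function.Injective (Subtype.val : W → (Fin n → ℤ)) := Subtype.val_injective
    refine (hinj.summable_iff ?_).mp ?_
    · intro w hw
      rw [hτ]
      simp only
      rw [dif_neg]
      intro hcon
      exact hw ⟨⟨w, hcon⟩, rfl⟩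
    · refine hsum.congr fun w => ?_
      rw [Function.comp_apply, hτe]
  have hconst : ∃ c, ∀ z ∈ Ω, f z = c := by
    refine core hn ho hc.isPreconnected hc.nonempty hb hI hf τ0 hτs ?_
    intro w u hu
    set g : bergman Ω := cls u hu.hm.diff hu.lp with hg
    obtain ⟨horth, p, hp, hpe⟩ := ext_formula ho hf hdense hext g
    have hpe' : T g =ᵐ[volume.restrict Ω]
        fun z => conj (f z) * u z - p z := by
      filter_upwards [hpe, cls_coe u hu.hm.diff hu.lp] with z h1 h2
      rw [h1, hg, h2]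
    refine ⟨p, hp, (memLp_congr_ae hpe').mp (Lp.memLp (T g)), ?_, ?_⟩
    · rw [← norm_sq_eq hpe']
      set w' : W := ⟨w, u, hu⟩ with hw'
      obtain ⟨c, hcu⟩ := hom_unique ho hc.isPreconnected (hU w').hm hu.hm (hU w').ne
      have h1 : g = c • C w' := by
        apply Subtype.ext
        apply Lp.ext
        have h3 := Lp.coeFn_smul c ((C w' : bergman Ω) : L2 (volume.restrict Ω))
        have h4 := cls_coe (U w') (hU w').hm.diff (hU w').lp
        filter_upwards [cls_coe u hu.hm.diff hu.lp, h3, h4, ae_restrict_mem hms] with z a1 a2 a3 a4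
        change (g : L2 (volume.restrict Ω)) z = (c • ((C w' : bergman Ω) : L2 (volume.restrict Ω)) : L2 (volume.restrict Ω)) z
        rw [a2, Pi.smul_apply, hg, a1, a3, hcu z a4, smul_eq_mul]
      have h2 : C w' = (r w' : ℂ) • e w' := by
        rw [he]
        simp only
        rw [smul_smul, mul_inv_cancel₀, one_smul]
        exact Complex.ofReal_ne_zero.mpr (hrpos w').ne'
      have h3 : ‖T g‖ ^ 2 = ‖c‖ ^ 2 * (r w' ^ 2 * ‖T (e w')‖ ^ 2) := by
        rw [h1, h2, map_smul, map_smul, norm_smul, norm_smul, Complex.norm_real,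
          Real.norm_of_nonneg (hrpos w').le]
        ring
      have h4 : Nn Ω u = ‖c‖ ^ 2 * r w' ^ 2 := by
        rw [← cls_norm u hu.hm.diff hu.lp, ← hg, h1, norm_smul, hCn]
        ring
      have h5 : τ w = ‖T (e w')‖ ^ 2 := hτe w'
      rw [h3, h4, h5]
      refine le_of_eq ?_
      ring
    · intro h hh hhL
      have h1 := (Submodule.mem_orthogonal _ _).mp horth _ (cls h hh hhL).2
      rwa [inner_eq (cls_coe h hh hhL) hpe'] at h1
  refine ⟨fun g hg => ?_, hconst⟩
  obtain ⟨c, hc'⟩ := hconst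
  have heq : (fun z => conj (f z) * (g : L2 (volume.restrict Ω)) z) =ᵐ[volume.restrict Ω]
      ((conj c • (g : L2 (volume.restrict Ω)) : L2 (volume.restrict Ω)) :
        (Fin n → ℂ) → ℂ) := by
    filter_upwards [Lp.coeFn_smul (conj c) (g : L2 (volume.restrict Ω)),
      ae_restrict_mem hms] with z h1 h2
    rw [h1, Pi.smul_apply, hc' z h2, smul_eq_mul]
  have h1 : MemLp.toLp (fun z => conj (f z) * (g : L2 (volume.restrict Ω)) z) hg =
      conj c • (g : L2 (volume.restrict Ω)) := by
    apply Lp.ext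
    exact (MemLp.coeFn_toLp hg).trans heq
  unfold hankel offProj
  rw [h1, Submodule.starProjection_eq_self_iff.mpr ((bergman Ω).smul_mem _ g.2), sub_self]

end Pool.Agent.Results.MP_dc9318_an.HilbertSchmidtHankel
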